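import Mathlib
import Pool.Agent.TH931.LP.StmC

/-!
The law of the two smallest coordinates (job LP931-Z4).
-/

set_option autoImplicit false

open MeasureTheory Set
open scoped ENNReal Matrix

namespace Pool.Agent.TH604.LP931.Z4

open Pool.Agent.TH931.LP

lemma lintegral_abs (f : ℝ → ℝ≥0∞) :
    ∫⁻ t, f |t| = 2 * ∫⁻ t in Ioi (0 : ℝ), f t := by
  have h1 : ∫⁻ t in Ioi (0 : ℝ), f |t| = ∫⁻ t in Ioi (0 : ℝ), f t :=
    setLIntegral_congr_fun measurableSet_Ioi (fun t ht => by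
      have h : (0 : ℝ) < t := ht
      simp only [abs_of_pos h])
  have h2 : ∫⁻ t in Iic (0 : ℝ), f |t| = ∫⁻ t in Ioi (0 : ℝ), f t := by
    have h3 : ∫⁻ t in Iic (0 : ℝ), f |t| = ∫⁻ t in Iio (0 : ℝ), f |t| :=
      setLIntegral_congr Iio_ae_eq_Iic.symm
    have h4 := (Measure.measurePreserving_neg (volume : Measure ℝ)).setLIntegral_comp_preimage_emb
      (MeasurableEquiv.neg ℝ).measurableEmbedding (fun t => f |t|) (Ioi 0)
    have h5 : (Neg.neg ⁻¹' Ioi (0 : ℝ)) = Iio 0 := by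
      ext t; simp
    rw [h3, ← h1, ← h4, h5]
    simp only [abs_neg]
  rw [← lintegral_add_compl _ (measurableSet_Ioi (a := (0 : ℝ))), compl_Ioi, h1, h2, two_mul]

lemma split (k : ℕ) (i : Fin (k + 1)) (f : (Fin (k + 1) → ℝ) → ℝ≥0∞) (hf : Measurable f) :
    ∫⁻ x, f x = ∫⁻ t : ℝ, ∫⁻ w : Fin k → ℝ, f (i.insertNth t w) := by
  have h := (volume_preserving_piFinSuccAbove (fun _ : Fin (k + 1) => ℝ) i).symm
  rw [← h.lintegral_comp hf]
  exact lintegral_prod _ (hf.comp h.measurable).aemeasurable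

lemma lintegral_piprod (g : ℝ → ℝ≥0∞) (hg : Measurable g) (k : ℕ) :
    ∫⁻ w : Fin k → ℝ, ∏ m, g (w m) = (∫⁻ t, g t) ^ k := by
  induction k with
  | zero =>
    simp only [Finset.univ_eq_empty, Finset.prod_empty, lintegral_one, pow_zero]
    rw [volume_pi, Measure.pi_univ]
    simp
  | succ k ih =>
    rw [split k 0 _ (by fun_prop)]
    have : ∀ t : ℝ, ∫⁻ w : Fin k → ℝ, ∏ m, g ((Fin.insertNth 0 t w : Fin (k + 1) → ℝ) m) =
        g t * (∫⁻ t, g t) ^ k := by
      intro t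
      rw [← ih, ← lintegral_const_mul _ (by fun_prop)]
      refine lintegral_congr fun w => ?_
      rw [Fin.prod_univ_succ]
      simp
    simp_rw [this]
    rw [lintegral_mul_const _ hg, pow_succ']

lemma lintegral_smul' (n : ℕ) (f : (Fin n → ℝ) → ℝ≥0∞) (T : ℝ) (hT : 0 < T) :
    ∫⁻ a, f a = ENNReal.ofReal (T ^ n) * ∫⁻ b, f (T • b) := by
  have h1 := Measure.map_addHaar_smul (volume : Measure (Fin n → ℝ)) hT.ne'
  have h2 : ∫⁻ b, f (T • b) = ∫⁻ a, f a ∂(Measure.map (T • ·) (volume : Measure (Fin n → ℝ))) := by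
    have hme : MeasurableEmbedding (fun b : Fin n → ℝ => T • b) :=
      (Homeomorph.smulOfNeZero T hT.ne').measurableEmbedding
    rw [hme.lintegral_map]
  rw [h2, h1, lintegral_smul_measure, Module.finrank_fin_fun, smul_eq_mul, ← mul_assoc,
    ← ENNReal.ofReal_mul (by positivity), abs_of_pos (by positivity),
    mul_inv_cancel₀ (by positivity), ENNReal.ofReal_one, one_mul]

/-- the cone of the tie free points with smallest coordinates `i`, `j` -/
def SS (c : ℕ) (i j : Fin (c + 1)) : Set (Fin (c + 1) → ℝ) :=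
  {a | (∀ l, a l ≠ 0) ∧ selP i j a}

lemma measSS (c : ℕ) (i j : Fin (c + 1)) : MeasurableSet (SS c i j) := by
  have h : SS c i j = (⋂ l, {a : Fin (c + 1) → ℝ | a l ≠ 0}) ∩
      ({a | |a i| < |a j|} ∩ ⋂ l, ⋂ (_ : l ≠ i), ⋂ (_ : l ≠ j),
        {a : Fin (c + 1) → ℝ | |a j| < |a l|}) := by
    ext a
    simp [SS, selP]
  rw [h]
  refine MeasurableSet.inter (MeasurableSet.iInter fun l => ?_) (MeasurableSet.inter ?_
    (MeasurableSet.iInter fun l => MeasurableSet.iInter fun _ => MeasurableSet.iInter fun _ => ?_))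
  · exact (measurableSet_eq_fun (measurable_pi_apply l) measurable_const).compl
  · exact measurableSet_lt (by fun_prop) (by fun_prop)
  · exact measurableSet_lt (by fun_prop) (by fun_prop)

lemma smul_mem_SS (c : ℕ) (i j : Fin (c + 1)) (T : ℝ) (hT : 0 < T) (a : Fin (c + 1) → ℝ) :
    T • a ∈ SS c i j ↔ a ∈ SS c i j := by
  simp only [SS, selP, mem_ofPred_eq, Pi.smul_apply, smul_eq_mul, abs_mul, abs_of_pos hT,
    mul_lt_mul_iff_right₀ hT, mul_ne_zero_iff]
  constructor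
  · rintro ⟨h1, h2⟩
    exact ⟨fun l => (h1 l).2, h2⟩
  · rintro ⟨h1, h2⟩
    exact ⟨fun l => ⟨hT.ne', h1 l⟩, h2⟩

lemma gam (n : ℕ) : ∫⁻ T in Ioi (0 : ℝ), ENNReal.ofReal (T ^ n) * ENNReal.ofReal (Real.exp (-T)) =
    (n.factorial : ℝ≥0∞) := by
  have h1 : ∀ T ∈ Ioi (0 : ℝ), ENNReal.ofReal (T ^ n) * ENNReal.ofReal (Real.exp (-T)) =
      ENNReal.ofReal (Real.exp (-T) * T ^ ((n + 1 : ℝ) - 1)) := by
    intro T hT
    have hT' : (0 : ℝ) < T := hT
    rw [← ENNReal.ofReal_mul (by positivity), mul_comm]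
    congr 2
    rw [add_sub_cancel_right, Real.rpow_natCast]
  rw [setLIntegral_congr_fun measurableSet_Ioi h1,
    ← ofReal_integral_eq_lintegral_ofReal (Real.GammaIntegral_convergent (by positivity))
      ((ae_restrict_iff' measurableSet_Ioi).2 (Filter.Eventually.of_forall fun T hT => by
        have hT' : (0 : ℝ) < T := hT
        positivity)),
    ← Real.Gamma_eq_integral (by positivity), Real.Gamma_nat_eq_factorial]
  simp


lemma step2 (c : ℕ) (i j : Fin (c + 1)) (Φ : ℝ → ℝ → ℝ → ℝ≥0∞)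
    (hΦ : Measurable (fun t : ℝ × ℝ × ℝ => Φ t.1 t.2.1 t.2.2))
    (hom : ∀ t x y s : ℝ, 0 < t → Φ (t * x) (t * y) (t * s) = Φ x y s) :
    ((c + 1).factorial : ℝ≥0∞) *
      ∫⁻ b in {b | b ∈ Zc c ∧ selP i j b}, Φ |b i| |b j| (1 - ∑ l, |b l|) =
    ∫⁻ a : Fin (c + 1) → ℝ, (SS c i j).indicator (fun a => ∫⁻ s in Ioi (0 : ℝ),
      Φ |a i| |a j| s * ENNReal.ofReal (Real.exp (-(∑ l, |a l|) - s))) a := by
  classical
  obtain ⟨A, hA⟩ : ∃ A : Set ((Fin (c + 1) → ℝ) × ℝ),
    A = {p : (Fin (c + 1) → ℝ) × ℝ | p.1 ∈ SS c i j ∧ ∑ l, |p.1 l| < p.2} := ⟨_, rfl⟩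
  have hAm : ∀ a T, ((a, T) : (Fin (c + 1) → ℝ) × ℝ) ∈ A ↔ (a ∈ SS c i j ∧ ∑ l, |a l| < T) := by
    intro a T
    rw [hA]
    exact Iff.rfl
  set G : (Fin (c + 1) → ℝ) × ℝ → ℝ≥0∞ := A.indicator
      (fun p => Φ |p.1 i| |p.1 j| (p.2 - ∑ l, |p.1 l|) * ENNReal.ofReal (Real.exp (-p.2))) with hG
  have hset : MeasurableSet A := by
    rw [hA]
    refine MeasurableSet.inter (measurable_fst (measSS c i j)) ?_
    exact measurableSet_lt (f := fun p : (Fin (c + 1) → ℝ) × ℝ => ∑ l, |p.1 l|)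
      (g := fun p => p.2) (by fun_prop) (by fun_prop)
  have hGm : Measurable G := by
    refine Measurable.indicator ?_ hset
    have h1 : Measurable (fun p : (Fin (c + 1) → ℝ) × ℝ =>
        Φ |p.1 i| |p.1 j| (p.2 - ∑ l, |p.1 l|)) := by
      have h2 : Measurable (fun p : (Fin (c + 1) → ℝ) × ℝ =>
        ((|p.1 i|, |p.1 j|, p.2 - ∑ l, |p.1 l|) : ℝ × ℝ × ℝ)) := by fun_prop
      exact hΦ.comp h2
    exact h1.mul (by fun_prop)
  -- the right side
  have hR : ∀ a : Fin (c + 1) → ℝ, (SS c i j).indicator (fun a => ∫⁻ s in Ioi (0 : ℝ),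
      Φ |a i| |a j| s * ENNReal.ofReal (Real.exp (-(∑ l, |a l|) - s))) a = ∫⁻ T, G (a, T) := by
    intro a
    by_cases ha : a ∈ SS c i j
    · rw [indicator_of_mem ha, ← lintegral_indicator measurableSet_Ioi,
        ← lintegral_sub_right_eq_self _ (∑ l, |a l|)]
      refine lintegral_congr fun T => ?_
      by_cases hT : ∑ l, |a l| < T
      · rw [indicator_of_mem (show T - ∑ l, |a l| ∈ Ioi (0 : ℝ) from sub_pos.2 hT), hG,
          indicator_of_mem ((hAm a T).2 ⟨ha, hT⟩)]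
        congr 3
        ring
      · rw [indicator_of_notMem (show T - ∑ l, |a l| ∉ Ioi (0 : ℝ) from
            fun h => hT (sub_pos.1 h)), hG, indicator_of_notMem (fun h => hT ((hAm a T).1 h).2)]
    · rw [indicator_of_notMem ha]
      have : ∀ T, G (a, T) = 0 := fun T => by
        rw [hG, indicator_of_notMem (fun h => ha ((hAm a T).1 h).1)]
      simp [this]
  simp_rw [hR]
  rw [lintegral_lintegral_swap (f := fun a T => G (a, T)) hGm.aemeasurable]
  have hT0 : ∀ T : ℝ, ∫⁻ a, G (a, T) = (Ioi (0 : ℝ)).indicator (fun T => ∫⁻ a, G (a, T)) T := by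
    intro T
    by_cases hT : 0 < T
    · rw [indicator_of_mem (show T ∈ Ioi (0 : ℝ) from hT)]
    · rw [indicator_of_notMem (show T ∉ Ioi (0 : ℝ) from hT)]
      have : ∀ a, G (a, T) = 0 := fun a => by
        rw [hG, indicator_of_notMem]
        intro hh
        obtain ⟨-, h⟩ := (hAm a T).1 hh
        have h0 : 0 ≤ ∑ l, |a l| := Finset.sum_nonneg fun _ _ => abs_nonneg _
        exact hT (lt_of_le_of_lt h0 h)
      simp [this]
  rw [lintegral_congr hT0, lintegral_indicator measurableSet_Ioi]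
  have hset2 : MeasurableSet {b : Fin (c + 1) → ℝ | b ∈ Zc c ∧ selP i j b} := by
    have : {b : Fin (c + 1) → ℝ | b ∈ Zc c ∧ selP i j b} = {b | ∑ l, |b l| < 1} ∩ SS c i j := by
      ext b
      simp only [Zc, SS, mem_ofPred_eq, mem_inter_iff]
      constructor
      · rintro ⟨⟨h1, h2, -⟩, h3⟩
        exact ⟨h1, h2, h3⟩
      · rintro ⟨h1, h2, h3⟩
        exact ⟨⟨h1, h2, i, j, h3⟩, h3⟩
    rw [this]
    exact (measurableSet_lt (by fun_prop) (by fun_prop)).inter (measSS c i j)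
  set I := ∫⁻ b in {b | b ∈ Zc c ∧ selP i j b}, Φ |b i| |b j| (1 - ∑ l, |b l|) with hI
  have hTpos : ∀ T ∈ Ioi (0 : ℝ), ∫⁻ a, G (a, T) =
      I * (ENNReal.ofReal (T ^ (c + 1)) * ENNReal.ofReal (Real.exp (-T))) := by
    intro T hT
    have hT' : (0 : ℝ) < T := hT
    rw [lintegral_smul' (c + 1) _ T hT', hI, ← lintegral_indicator hset2]
    have hb : ∀ b : Fin (c + 1) → ℝ, G (T • b, T) =
        {b | b ∈ Zc c ∧ selP i j b}.indicator (fun b => Φ |b i| |b j| (1 - ∑ l, |b l|)) b *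
          ENNReal.ofReal (Real.exp (-T)) := by
      intro b
      have hs : ∑ l, |(T • b) l| = T * ∑ l, |b l| := by
        rw [Finset.mul_sum]
        refine Finset.sum_congr rfl fun l _ => ?_
        rw [Pi.smul_apply, smul_eq_mul, abs_mul, abs_of_pos hT']
      have hiff : ((T • b, T) : (Fin (c + 1) → ℝ) × ℝ) ∈ A ↔
          b ∈ {b | b ∈ Zc c ∧ selP i j b} := by
        rw [hAm]
        change (T • b ∈ SS c i j ∧ ∑ l, |(T • b) l| < T) ↔ (b ∈ Zc c ∧ selP i j b)
        rw [smul_mem_SS c i j T hT', hs]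
        have h1 : T * ∑ l, |b l| < T ↔ ∑ l, |b l| < 1 := by
          constructor
          · intro h
            by_contra h2
            push Not at h2
            nlinarith
          · intro h
            nlinarith
        rw [h1]
        constructor
        · rintro ⟨⟨h2, h3⟩, h4⟩
          exact ⟨⟨h4, h2, i, j, h3⟩, h3⟩
        · rintro ⟨⟨h2, h3, -⟩, h4⟩
          exact ⟨⟨h3, h4⟩, h2⟩
      by_cases hb : b ∈ {b | b ∈ Zc c ∧ selP i j b}
      · rw [hG, indicator_of_mem (hiff.2 hb), indicator_of_mem hb]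
        simp only [Pi.smul_apply, smul_eq_mul, abs_mul, abs_of_pos hT']
        congr 1
        have : T - ∑ l, T * |b l| = T * (1 - ∑ l, |b l|) := by
          rw [← Finset.mul_sum]; ring
        rw [this, hom _ _ _ _ hT']
      · rw [hG, indicator_of_notMem (fun h => hb (hiff.1 h)), indicator_of_notMem hb, zero_mul]
    simp_rw [hb]
    rw [lintegral_mul_const']
    · ring
    · exact ENNReal.ofReal_ne_top
  rw [setLIntegral_congr_fun measurableSet_Ioi hTpos, lintegral_const_mul _ (by fun_prop), gam,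
    mul_comm]


lemma exp_Ioi (y : ℝ) : ∫⁻ t in Ioi y, ENNReal.ofReal (Real.exp (-t)) =
    ENNReal.ofReal (Real.exp (-y)) := by
  rw [← ofReal_integral_eq_lintegral_ofReal (integrableOn_exp_neg_Ioi y)
    (Filter.Eventually.of_forall fun t => (Real.exp_pos _).le), integral_exp_neg_Ioi]

/-- the tail integral -/
lemma tail (y : ℝ) (hy : 0 ≤ y) :
    ∫⁻ t : ℝ, {t : ℝ | y < |t|}.indicator (fun t => ENNReal.ofReal (Real.exp (-|t|))) t =
      2 * ENNReal.ofReal (Real.exp (-y)) := by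
  have h1 : ∀ t : ℝ, {t : ℝ | y < |t|}.indicator
      (fun t => ENNReal.ofReal (Real.exp (-|t|))) t =
      (Ioi y).indicator (fun t => ENNReal.ofReal (Real.exp (-t))) |t| := by
    intro t
    by_cases ht : y < |t|
    · rw [indicator_of_mem (show t ∈ {t : ℝ | y < |t|} from ht),
        indicator_of_mem (show |t| ∈ Ioi y from ht)]
    · rw [indicator_of_notMem (show t ∉ {t : ℝ | y < |t|} from ht),
        indicator_of_notMem (show |t| ∉ Ioi y from ht)]
  simp_rw [h1]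
  rw [lintegral_abs, ← exp_Ioi y]
  congr 1
  rw [setLIntegral_indicator measurableSet_Ioi]
  congr 1
  rw [inter_eq_self_of_subset_left (Ioi_subset_Ioi hy)]

lemma step3 (k : ℕ) (i : Fin (k + 2)) (j' : Fin (k + 1)) (Φ : ℝ → ℝ → ℝ → ℝ≥0∞)
    (hΦ : Measurable (fun t : ℝ × ℝ × ℝ => Φ t.1 t.2.1 t.2.2)) :
    ∫⁻ a : Fin (k + 1 + 1) → ℝ, (SS (k + 1) i (i.succAbove j')).indicator
      (fun a => ∫⁻ s in Ioi (0 : ℝ), Φ |a i| |a (i.succAbove j')| s *
        ENNReal.ofReal (Real.exp (-(∑ l, |a l|) - s))) a =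
    2 ^ (k + 2) * ∫⁻ x in Ioi (0 : ℝ), ∫⁻ z in Ioi (0 : ℝ), ∫⁻ s in Ioi (0 : ℝ),
      ENNReal.ofReal (Real.exp (-((((k + 1 : ℕ) : ℝ) + 1) * x + ((k + 1 : ℕ) : ℝ) * z + s))) *
        Φ x (x + z) s := by
  classical
  -- the inner integral
  obtain ⟨H, hH⟩ : ∃ H : ℝ × ℝ → ℝ≥0∞, H = fun p => ∫⁻ s in Ioi (0 : ℝ),
    Φ p.1 p.2 s * ENNReal.ofReal (Real.exp (-s)) := ⟨_, rfl⟩
  have hHm : Measurable H := by
    rw [hH]
    have h1 : Measurable (fun q : (ℝ × ℝ) × ℝ => Φ q.1.1 q.1.2 q.2 *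
        ENNReal.ofReal (Real.exp (-q.2))) := by
      have h2 : Measurable (fun q : (ℝ × ℝ) × ℝ => ((q.1.1, q.1.2, q.2) : ℝ × ℝ × ℝ)) := by
        fun_prop
      exact (hΦ.comp h2).mul (by fun_prop)
    exact h1.lintegral_prod_right'
  set j := i.succAbove j' with hj
  have hin : ∀ a : Fin (k + 1 + 1) → ℝ, ∫⁻ s in Ioi (0 : ℝ), Φ |a i| |a j| s *
        ENNReal.ofReal (Real.exp (-(∑ l, |a l|) - s)) =
      ENNReal.ofReal (Real.exp (-(∑ l, |a l|))) * H (|a i|, |a j|) := by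
    intro a
    rw [hH]
    simp only
    rw [← lintegral_const_mul' _ _ ENNReal.ofReal_ne_top]
    refine lintegral_congr fun s => ?_
    rw [sub_eq_add_neg, Real.exp_add, ENNReal.ofReal_mul (Real.exp_pos _).le]
    ring
  simp_rw [hin]
  set J : (Fin (k + 1 + 1) → ℝ) → ℝ≥0∞ := (SS (k + 1) i j).indicator
    (fun a => ENNReal.ofReal (Real.exp (-(∑ l, |a l|))) * H (|a i|, |a j|)) with hJ
  have hJm : Measurable J := by
    refine Measurable.indicator ?_ (measSS (k + 1) i j)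
    have h2 : Measurable (fun a : Fin (k + 1 + 1) → ℝ => ((|a i|, |a j|) : ℝ × ℝ)) := by fun_prop
    exact Measurable.mul (by fun_prop) (hHm.comp h2)
  change ∫⁻ a, J a = _
  rw [split (k + 1) i J hJm]
  -- the two smallest coordinates
  obtain ⟨q, hq⟩ : ∃ q : ℝ → ℝ → ℝ≥0∞, q = fun u v => ENNReal.ofReal (Real.exp (-u - v)) *
    H (u, v) * (2 * ENNReal.ofReal (Real.exp (-v))) ^ k := ⟨_, rfl⟩
  have hmain : ∀ x y : ℝ, ∫⁻ w : Fin k → ℝ, J (i.insertNth x (j'.insertNth y w)) =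
      if 0 < |x| ∧ |x| < |y| then q |x| |y| else 0 := by
    intro x y
    have hval : ∀ w : Fin k → ℝ, J (i.insertNth x (j'.insertNth y w)) =
        (if 0 < |x| ∧ |x| < |y| then ENNReal.ofReal (Real.exp (-|x| - |y|)) *
          H (|x|, |y|) else 0) *
        ∏ m, {t : ℝ | |y| < |t|}.indicator (fun t => ENNReal.ofReal (Real.exp (-|t|))) (w m) := by
      intro w
      set a : Fin (k + 1 + 1) → ℝ := i.insertNth x (j'.insertNth y w) with ha
      have hai : a i = x := by rw [ha]; simp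
      have haj : a j = y := by rw [ha, hj]; simp
      have haw : ∀ m, a (i.succAbove (j'.succAbove m)) = w m := by
        intro m; rw [ha]; simp
      have hsum : ∑ l, |a l| = |x| + (|y| + ∑ m, |w m|) := by
        rw [Fin.sum_univ_succAbove _ i, Fin.sum_univ_succAbove _ j', hai, ← hj, haj]
        simp_rw [haw]
      have hmem : a ∈ SS (k + 1) i j ↔ ((0 < |x| ∧ |x| < |y|) ∧ ∀ m, |y| < |w m|) := by
        constructor
        · rintro ⟨h1, h2, h3⟩
          refine ⟨⟨?_, ?_⟩, fun m => ?_⟩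
          · have := h1 i
            rw [hai] at this
            exact abs_pos.2 this
          · rwa [hai, haj] at h2
          · have h4 := h3 (i.succAbove (j'.succAbove m)) (Fin.succAbove_ne _ _)
              (fun h => Fin.succAbove_ne j' m (Fin.succAbove_right_injective (hj ▸ h)))
            rwa [haw, haj] at h4
        · rintro ⟨⟨h1, h2⟩, h3⟩
          have hy : 0 < |y| := h1.trans h2
          have hall : ∀ l, a l ≠ 0 := by
            rw [Fin.forall_iff_succAbove i]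
            refine ⟨by rw [hai]; exact abs_pos.1 h1, ?_⟩
            rw [Fin.forall_iff_succAbove j']
            refine ⟨by rw [← hj, haj]; exact abs_pos.1 hy, fun m => ?_⟩
            rw [haw]
            exact abs_pos.1 (hy.trans (h3 m))
          refine ⟨hall, ?_, ?_⟩
          · rw [hai, haj]; exact h2
          · rw [Fin.forall_iff_succAbove i]
            refine ⟨fun h => absurd rfl h, ?_⟩
            rw [Fin.forall_iff_succAbove j']
            refine ⟨fun _ h => absurd hj.symm h, fun m _ _ => ?_⟩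
            rw [haw, haj]
            exact h3 m
      by_cases h1 : 0 < |x| ∧ |x| < |y|
      · rw [if_pos h1]
        by_cases h2 : ∀ m, |y| < |w m|
        · rw [hJ, indicator_of_mem (hmem.2 ⟨h1, h2⟩), hai, haj, hsum]
          have h3 : ∏ m, {t : ℝ | |y| < |t|}.indicator
              (fun t => ENNReal.ofReal (Real.exp (-|t|))) (w m) =
              ENNReal.ofReal (Real.exp (-∑ m, |w m|)) := by
            rw [← Finset.sum_neg_distrib, Real.exp_sum,
              ENNReal.ofReal_prod_of_nonneg (fun _ _ => (Real.exp_pos _).le)]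
            refine Finset.prod_congr rfl fun m _ => ?_
            rw [indicator_of_mem (show w m ∈ {t : ℝ | |y| < |t|} from h2 m)]
          rw [h3]
          have h4 : -(|x| + (|y| + ∑ m, |w m|)) = (-|x| - |y|) + (-∑ m, |w m|) := by ring
          rw [h4, Real.exp_add, ENNReal.ofReal_mul (Real.exp_pos _).le]
          ring
        · rw [hJ, indicator_of_notMem (fun h => h2 (hmem.1 h).2)]
          push Not at h2
          obtain ⟨m, hm⟩ := h2
          rw [Finset.prod_eq_zero (Finset.mem_univ m), mul_zero]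
          rw [indicator_of_notMem (show w m ∉ {t : ℝ | |y| < |t|} from not_lt.2 hm)]
      · rw [if_neg h1, zero_mul, hJ, indicator_of_notMem (fun h => h1 (hmem.1 h).1)]
    simp_rw [hval]
    have hgm : Measurable (fun t : ℝ => {t : ℝ | |y| < |t|}.indicator
        (fun t => ENNReal.ofReal (Real.exp (-|t|))) t) :=
      Measurable.indicator (by fun_prop)
        (measurableSet_lt (f := fun _ : ℝ => |y|) (g := fun t : ℝ => |t|) (by fun_prop)
          (by fun_prop))
    have hpm : Measurable (fun w : Fin k → ℝ => ∏ m, {t : ℝ | |y| < |t|}.indicator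
        (fun t => ENNReal.ofReal (Real.exp (-|t|))) (w m)) :=
      Finset.measurable_prod _ (fun m _ => hgm.comp (measurable_pi_apply m))
    rw [lintegral_const_mul _ hpm, lintegral_piprod _ hgm k, tail _ (abs_nonneg y), hq]
    split_ifs <;> simp
  have hsp : ∀ x : ℝ, ∫⁻ w : Fin (k + 1) → ℝ, J (i.insertNth x w) =
      ∫⁻ y : ℝ, (if 0 < |x| ∧ |x| < |y| then q |x| |y| else 0) := by
    intro x
    have hm : Measurable (fun w : Fin (k + 1) → ℝ => J (i.insertNth x w)) := by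
      have h := (volume_preserving_piFinSuccAbove (fun _ : Fin (k + 1 + 1) => ℝ) i).symm.measurable
      exact hJm.comp (h.comp (measurable_const.prodMk measurable_id))
    rw [split k j' _ hm]
    exact lintegral_congr fun y => hmain x y
  rw [lintegral_congr hsp]
  have h2 : ∀ x : ℝ, ∫⁻ y : ℝ, (if 0 < |x| ∧ |x| < |y| then q |x| |y| else 0) =
      (fun u => 2 * ∫⁻ v in Ioi (0 : ℝ), (if 0 < u ∧ u < v then q u v else 0)) |x| := by
    intro x
    exact lintegral_abs (fun v => if 0 < |x| ∧ |x| < v then q |x| v else 0)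
  rw [lintegral_congr h2, lintegral_abs
    (fun u => 2 * ∫⁻ v in Ioi (0 : ℝ), (if 0 < u ∧ u < v then q u v else 0))]
  have h3 : ∀ x ∈ Ioi (0 : ℝ), 2 * ∫⁻ v in Ioi (0 : ℝ), (if 0 < x ∧ x < v then q x v else 0) =
      2 ^ (k + 1) * ∫⁻ z in Ioi (0 : ℝ), ∫⁻ s in Ioi (0 : ℝ),
      ENNReal.ofReal (Real.exp (-((((k + 1 : ℕ) : ℝ) + 1) * x + ((k + 1 : ℕ) : ℝ) * z + s))) *
        Φ x (x + z) s := by
    intro x hx
    have hx' : (0 : ℝ) < x := hx
    have h4 : ∫⁻ v in Ioi (0 : ℝ), (if 0 < x ∧ x < v then q x v else 0) =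
        ∫⁻ z in Ioi (0 : ℝ), q x (x + z) := by
      rw [← lintegral_indicator measurableSet_Ioi, ← lintegral_indicator measurableSet_Ioi,
        ← lintegral_add_left_eq_self _ x]
      refine lintegral_congr fun z => ?_
      by_cases hz : 0 < z
      · rw [indicator_of_mem (show x + z ∈ Ioi (0 : ℝ) from add_pos hx' hz),
          indicator_of_mem (show z ∈ Ioi (0 : ℝ) from hz), if_pos ⟨hx', by linarith⟩]
      · rw [indicator_of_notMem (show z ∉ Ioi (0 : ℝ) from hz)]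
        by_cases hxz : x + z ∈ Ioi (0 : ℝ)
        · rw [indicator_of_mem hxz, if_neg]
          rintro ⟨-, h⟩
          exact hz (by linarith)
        · rw [indicator_of_notMem hxz]
    rw [h4, pow_succ', mul_assoc]
    congr 1
    rw [← lintegral_const_mul' _ _ (by simp)]
    refine lintegral_congr fun z => ?_
    rw [hq, hH]
    simp only
    have e1 : ENNReal.ofReal (Real.exp (-x - (x + z))) *
        (∫⁻ s in Ioi (0 : ℝ), Φ x (x + z) s * ENNReal.ofReal (Real.exp (-s))) *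
        (2 * ENNReal.ofReal (Real.exp (-(x + z)))) ^ k =
        (2 ^ k * ENNReal.ofReal (Real.exp (-x - (x + z) - k * (x + z)))) *
        ∫⁻ s in Ioi (0 : ℝ), Φ x (x + z) s * ENNReal.ofReal (Real.exp (-s)) := by
      have e2 : ENNReal.ofReal (Real.exp (-x - (x + z) - k * (x + z))) =
          ENNReal.ofReal (Real.exp (-x - (x + z))) * ENNReal.ofReal (Real.exp (-(x + z))) ^ k := by
        rw [← ENNReal.ofReal_pow (Real.exp_pos _).le, ← Real.exp_nat_mul,
          ← ENNReal.ofReal_mul (Real.exp_pos _).le, ← Real.exp_add]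
        congr 2
        ring
      rw [e2, mul_pow]
      ring
    rw [e1, mul_assoc, ← lintegral_const_mul' _ _ ENNReal.ofReal_ne_top]
    congr 1
    refine lintegral_congr fun s => ?_
    have e3 : ENNReal.ofReal (Real.exp (-((((k + 1 : ℕ) : ℝ) + 1) * x +
        ((k + 1 : ℕ) : ℝ) * z + s))) =
        ENNReal.ofReal (Real.exp (-x - (x + z) - k * (x + z))) *
          ENNReal.ofReal (Real.exp (-s)) := by
      rw [← ENNReal.ofReal_mul (Real.exp_pos _).le, ← Real.exp_add]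
      congr 2
      push_cast
      ring
    rw [e3]
    ring
  rw [setLIntegral_congr_fun measurableSet_Ioi h3, lintegral_const_mul' _ _ (by simp),
    ← mul_assoc, ← pow_succ']

lemma vol_pol (c : ℕ) : volume (cubeF c).pol =
    2 ^ (c + 1) / ((c + 1).factorial : ℝ≥0∞) := by
  have h := MeasureTheory.volume_sum_rpow_le (ι := Fin (c + 1)) (p := 1) le_rfl 1
  have e1 : {x : Fin (c + 1) → ℝ | (∑ i, |x i| ^ (1 : ℝ)) ^ (1 / (1 : ℝ)) ≤ 1} =
      (cubeF c).pol := by
    ext x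
    simp only [Real.rpow_one, div_one, mem_ofPred_eq]
    exact Iff.rfl
  rw [e1] at h
  rw [h, ENNReal.ofReal_one, one_pow, one_mul, Fintype.card_fin]
  have e2 : (1 : ℝ) / 1 + 1 = ((1 : ℕ) : ℝ) + 1 := by norm_num
  rw [e2, Real.Gamma_nat_eq_factorial, div_one, Real.Gamma_nat_eq_factorial,
    ENNReal.ofReal_div_of_pos (by positivity)]
  simp only [Nat.factorial_one, Nat.cast_one, mul_one, ENNReal.ofReal_natCast]
  rw [ENNReal.ofReal_pow (by norm_num)]
  norm_num

theorem z4 (_h2 : S_rad) : S_z4 := by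
  intro c hc Φ hΦ hom
  obtain ⟨k, rfl⟩ : ∃ k, c = k + 1 := ⟨c - 1, by omega⟩
  obtain ⟨K, hK⟩ : ∃ K : ℝ≥0∞, K = ∫⁻ x in Ioi (0 : ℝ), ∫⁻ z in Ioi (0 : ℝ),
      ∫⁻ s in Ioi (0 : ℝ),
      ENNReal.ofReal (Real.exp (-((((k + 1 : ℕ) : ℝ) + 1) * x + ((k + 1 : ℕ) : ℝ) * z + s))) *
        Φ x (x + z) s := ⟨_, rfl⟩
  have hfac : ((k + 1 + 1).factorial : ℝ≥0∞) ≠ 0 := by
    exact_mod_cast (Nat.factorial_pos _).ne'
  have hfac' : ((k + 1 + 1).factorial : ℝ≥0∞) ≠ ⊤ := ENNReal.natCast_ne_top _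
  have hI : ∀ (i : Fin (k + 1 + 1)) (j' : Fin (k + 1)),
      ∫⁻ b in {b | b ∈ Zc (k + 1) ∧ selP i (i.succAbove j') b},
        Φ |b i| |b (i.succAbove j')| (1 - ∑ l, |b l|) =
      2 ^ (k + 2) / ((k + 1 + 1).factorial : ℝ≥0∞) * K := by
    intro i j'
    have h1 := step2 (k + 1) i (i.succAbove j') Φ hΦ hom
    rw [step3 k i j' Φ hΦ, ← hK] at h1
    rw [ENNReal.eq_div_iff hfac hfac' |>.2 h1 |>.trans rfl, ENNReal.mul_div_right_comm]
  have hd : ∀ i : Fin (k + 1 + 1), ∫⁻ b in {b | b ∈ Zc (k + 1) ∧ selP i i b},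
      Φ |b i| |b i| (1 - ∑ l, |b l|) = 0 := by
    intro i
    have : {b | b ∈ Zc (k + 1) ∧ selP i i b} = ∅ := by
      ext b
      simp [selP]
    rw [this]
    simp
  have hsum : ∀ i : Fin (k + 1 + 1), ∑ j, ∫⁻ b in {b | b ∈ Zc (k + 1) ∧ selP i j b},
      Φ |b i| |b j| (1 - ∑ l, |b l|) =
      ((k + 1 : ℕ) : ℝ≥0∞) * (2 ^ (k + 2) / ((k + 1 + 1).factorial : ℝ≥0∞) * K) := by
    intro i
    rw [Fin.sum_univ_succAbove _ i, hd, zero_add]
    simp_rw [hI]
    simp
  simp_rw [hsum]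
  rw [vol_pol]
  have hR : ∫⁻ x in Ioi (0 : ℝ), ∫⁻ z in Ioi (0 : ℝ), ∫⁻ s in Ioi (0 : ℝ),
      ENNReal.ofReal ((((k + 1 : ℕ) : ℝ) + 1) * ((k + 1 : ℕ) : ℝ) *
        Real.exp (-((((k + 1 : ℕ) : ℝ) + 1) * x + ((k + 1 : ℕ) : ℝ) * z + s))) *
        Φ x (x + z) s = (((k + 1 + 1 : ℕ) : ℝ≥0∞) * ((k + 1 : ℕ) : ℝ≥0∞)) * K := by
    have hne : (((k + 1 + 1 : ℕ) : ℝ≥0∞) * ((k + 1 : ℕ) : ℝ≥0∞)) ≠ ⊤ :=
      ENNReal.mul_ne_top (ENNReal.natCast_ne_top _) (ENNReal.natCast_ne_top _)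
    rw [hK, ← lintegral_const_mul' _ _ hne]
    refine lintegral_congr fun x => ?_
    rw [← lintegral_const_mul' _ _ hne]
    refine lintegral_congr fun z => ?_
    rw [← lintegral_const_mul' _ _ hne]
    refine lintegral_congr fun s => ?_
    rw [ENNReal.ofReal_mul (by positivity), ENNReal.ofReal_mul (by positivity),
      ENNReal.ofReal_natCast]
    have : ENNReal.ofReal (((k + 1 : ℕ) : ℝ) + 1) = ((k + 1 + 1 : ℕ) : ℝ≥0∞) := by
      rw [← ENNReal.ofReal_natCast (k + 1 + 1)]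
      push_cast
      rfl
    rw [this]
    ring
  rw [hR]
  simp only [Finset.sum_const, Finset.card_univ, Fintype.card_fin, nsmul_eq_mul]
  ring

end Pool.Agent.TH604.LP931.Z4
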